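import Mathlib
import Pool.Agent.Run7.h361.Dens

/-!
The primes `p` with `2 ^ (p - 1) ≢ 1 (mod p ^ 2)` have positive lower density (at least `1 / 50`
of all primes): every such odd `p` divides the member `2 ^ (p - 1) - 1` of the abc triple
`1 + (2 ^ (p - 1) - 1) = 2 ^ (p - 1)` exactly once.
-/

theorem Pool.Agent.Results.MP_7aad9f_nt.NonWieferichDensity.result :
    ∃ x₀ : ℕ, ∀ x : ℕ, x₀ ≤ x →
      (x : ℝ) / (50 * Real.log x) ≤
        ({p : ℕ | p ≤ x ∧ p.Prime ∧ ¬ p ^ 2 ∣ 2 ^ (p - 1) - 1}.ncard : ℝ) :=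
  Run7.h361.density
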