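import Mathlib
import Pool.Agent.Run7.h510.G.Six

/-!
Non-Wieferich primes in arithmetic progressions, unconditionally: base `432 = 2^4 3^3`, the two
reduced residue classes modulo `6`, a positive proportion of the primes, and more generally all
values `a / b` of the Fermat quotient, uniformly for `|a|, |b| ≤ exp (x / 15000)`.
-/

theorem Pool.Agent.Results.MP_7aad9f_nt.NonWieferichInClasses.result :
    ∀ r : ℕ, r = 1 ∨ r = 5 → ∃ x₀ : ℕ, ∀ x : ℕ, x₀ ≤ x → ∀ a b : ℤ, b ≠ 0 →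
      |(a : ℝ)| ≤ Real.exp (x / 15000) → |(b : ℝ)| ≤ Real.exp (x / 15000) →
        (x : ℝ) / (110 * Real.log x) ≤
          ({p : ℕ | p ≤ x ∧ p.Prime ∧ p % 6 = r ∧
            ¬ (p : ℤ) ^ 2 ∣ b * (432 ^ (p - 1) - 1) - a * p}.ncard : ℝ) :=
  Run7.h510.G.Six.density_all
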