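import Pool.Agent.Run7.h585.LD.Wts

/-!
# The radicals of the members of an abc triple: large deviations with the second order term

For an abc triple `(a, b, c)` the gains `g₀, g₁, g₂ ∈ [0, 1]` are given by `rad a = c^(1-g₀)`,
`rad b = c^(1-g₁)`, `rad c = c^(1-g₂)`. Write `N E X` for the number of the abc triples with
`c ≤ X` and gains in `E`, and `y X = √(log X / log log X)`.

`result` (1) gives, for closed sets `E` with least total gain `s` in `(0, 1)`, the two main terms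
of `log N E X`: `(2 - s) log X` and `√8 max ∑ √g_l` times `y X`, the maximum over the points of `E`
with total gain `s`; and the typical gains: outside every open set that contains all the maximisers
lie the gains of at most a proportion `exp(-δ y X)` of the triples counted by `N E X`.
(2) In particular, for `2 < θ < 3`: in all but a proportion `exp(-δ y X)` of the triples with
`c ≤ X` and `rad(abc) ≤ c^θ` each of `rad a`, `rad b`, `rad c` is `c^(θ/3+o(1))`.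

Written by helper585; see the claim file.
-/

set_option autoImplicit false

namespace Pool.Agent.Results.MP_7aad9f_nt.RadicalsLargeDeviations

open Finset Filter Topology

/-- the radical: the product of the primes dividing `n` -/
def rad (n : ℕ) : ℕ := ∏ p ∈ n.primeFactors, p

/-- `t = (a, b, c)` is an abc triple: `a` and `b` are positive and coprime, and `a + b = c` -/
def IsTriple (t : ℕ × ℕ × ℕ) : Prop :=
  0 < t.1 ∧ 0 < t.2.1 ∧ Nat.Coprime t.1 t.2.1 ∧ t.1 + t.2.1 = t.2.2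

/-- the gains of `t = (a, b, c)`: the numbers `g₀, g₁, g₂` with `rad a = c^(1-g₀)`,
`rad b = c^(1-g₁)` and `rad c = c^(1-g₂)`; they lie in `[0, 1]` -/
noncomputable def gain (t : ℕ × ℕ × ℕ) : Fin 3 → ℝ :=
  ![1 - Real.log (rad t.1) / Real.log t.2.2, 1 - Real.log (rad t.2.1) / Real.log t.2.2,
    1 - Real.log (rad t.2.2) / Real.log t.2.2]

/-- the number of the abc triples with `c ≤ X` and gains in `E` -/
noncomputable def N (E : Set (Fin 3 → ℝ)) (X : ℝ) : ℝ :=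
  ({t : ℕ × ℕ × ℕ | IsTriple t ∧ (t.2.2 : ℝ) ≤ X ∧ gain t ∈ E}.ncard : ℝ)

/-- the second order scale `√(log X / log log X)` -/
noncomputable def y (X : ℝ) : ℝ := √(Real.log X / Real.log (Real.log X))

/-- the unit cube -/
def Cube : Set (Fin 3 → ℝ) := {g | ∀ l, 0 ≤ g l ∧ g l ≤ 1}

/-- the abc triples with `c ≤ X` and `rad(a)^(α 0) rad(b)^(α 1) rad(c)^(α 2) ≤ c^θ` -/
def W (α : Fin 3 → ℝ) (θ X : ℝ) : Set (ℕ × ℕ × ℕ) :=
  {t | IsTriple t ∧ (t.2.2 : ℝ) ≤ X ∧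
    (rad t.1 : ℝ) ^ α 0 * (rad t.2.1 : ℝ) ^ α 1 * (rad t.2.2 : ℝ) ^ α 2 ≤ (t.2.2 : ℝ) ^ θ}

/-- the abc triples with `c ≤ X` and `rad(abc) ≤ c^θ` -/
def R (θ X : ℝ) : Set (ℕ × ℕ × ℕ) :=
  {t | IsTriple t ∧ (t.2.2 : ℝ) ≤ X ∧ (rad (t.1 * t.2.1 * t.2.2) : ℝ) ≤ (t.2.2 : ℝ) ^ θ}

section

open Run7.h585.LD

theorem n_eq (E : Set (Fin 3 → ℝ)) (X : ℝ) : N E X = ((TS E X).ncard : ℝ) := rfl

theorem to_log {P : ℝ → Prop} (h : ∃ X₀ : ℝ, 1 < X₀ ∧ ∀ X : ℝ, X₀ ≤ X → P X) :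
    ∀ᶠ X : ℝ in atTop, P (Real.log X) := by
  obtain ⟨X₀, -, h⟩ := h
  filter_upwards [Real.tendsto_log_atTop.eventually_ge_atTop X₀] with X hX
  exact h _ hX

theorem to_log_lim {E : Set (Fin 3 → ℝ)} {A B : ℝ}
    (h : Tendsto (fun X : ℝ => (Real.log ((TS E (Real.exp X)).ncard : ℝ) - A * X) /
      √(X / Real.log X)) atTop (𝓝 B)) :
    Tendsto (fun X : ℝ => (Real.log (N E X) - A * Real.log X) / y X) atTop (𝓝 B) := by
  refine (h.comp Real.tendsto_log_atTop).congr' ?_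
  filter_upwards [eventually_gt_atTop 0] with X hX0
  simp only [Function.comp_apply]
  rw [Real.exp_log hX0]
  rfl

theorem to_log_conc {E U : Set (Fin 3 → ℝ)}
    (h : ∃ δ : ℝ, 0 < δ ∧ ∃ X₀ : ℝ, 1 < X₀ ∧ ∀ X : ℝ, X₀ ≤ X →
      ((TS (E \ U) (Real.exp X)).ncard : ℝ) ≤
        Real.exp (-(δ * √(X / Real.log X))) * ((TS E (Real.exp X)).ncard : ℝ)) :
    ∃ δ : ℝ, 0 < δ ∧ ∀ᶠ X : ℝ in atTop, N (E \ U) X ≤ Real.exp (-(δ * y X)) * N E X := by
  obtain ⟨δ, hδ, h⟩ := h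
  refine ⟨δ, hδ, ?_⟩
  filter_upwards [to_log h, eventually_gt_atTop 0] with X hX hX0
  rw [Real.exp_log hX0] at hX
  exact hX

/-- the weighted inequality in terms of the gains -/
theorem wt_iff {t : ℕ × ℕ × ℕ} (ht : IsTriple t) (α : Fin 3 → ℝ) (r : ℝ) :
    (rad t.1 : ℝ) ^ α 0 * (rad t.2.1 : ℝ) ^ α 1 * (rad t.2.2 : ℝ) ^ α 2 ≤
      (t.2.2 : ℝ) ^ (∑ l, α l - r) ↔ gain t ∈ We α r := by
  have hc := log_c_pos ht
  have hcR : (0 : ℝ) < t.2.2 := by
    have : 2 ≤ t.2.2 := two_le_c ht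
    exact_mod_cast (by omega : 0 < t.2.2)
  have h1 : (0 : ℝ) < rad t.1 := by exact_mod_cast rd_pos _
  have h2 : (0 : ℝ) < rad t.2.1 := by exact_mod_cast rd_pos _
  have h3 : (0 : ℝ) < rad t.2.2 := by exact_mod_cast rd_pos _
  have p1 : 0 < (rad t.1 : ℝ) ^ α 0 := Real.rpow_pos_of_pos h1 _
  have p2 : 0 < (rad t.2.1 : ℝ) ^ α 1 := Real.rpow_pos_of_pos h2 _
  have p3 : 0 < (rad t.2.2 : ℝ) ^ α 2 := Real.rpow_pos_of_pos h3 _
  rw [← Real.log_le_log_iff (by positivity) (Real.rpow_pos_of_pos hcR _),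
    Real.log_mul (by positivity) p3.ne', Real.log_mul p1.ne' p2.ne', Real.log_rpow h1,
    Real.log_rpow h2, Real.log_rpow h3, Real.log_rpow hcR]
  obtain ⟨L, hL⟩ : ∃ L : ℝ, L = Real.log t.2.2 := ⟨_, rfl⟩
  have g0 : Real.log (rad t.1) = (1 - gain t 0) * L := by
    show _ = (1 - (1 - Real.log (rad t.1) / Real.log t.2.2)) * L
    rw [← hL] at hc ⊢
    field_simp
    ring
  have g1 : Real.log (rad t.2.1) = (1 - gain t 1) * L := by
    show _ = (1 - (1 - Real.log (rad t.2.1) / Real.log t.2.2)) * L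
    rw [← hL] at hc ⊢
    field_simp
    ring
  have g2 : Real.log (rad t.2.2) = (1 - gain t 2) * L := by
    show _ = (1 - (1 - Real.log (rad t.2.2) / Real.log t.2.2)) * L
    rw [← hL] at hc ⊢
    field_simp
    ring
  rw [g0, g1, g2, ← hL]
  rw [← hL] at hc
  have e : gain t ∈ We α r ↔ r ≤ α 0 * gain t 0 + α 1 * gain t 1 + α 2 * gain t 2 := by
    show r ≤ ∑ l, α l * gain t l ↔ _
    rw [Fin.sum_univ_three]
  rw [e, Fin.sum_univ_three]
  constructor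
  · intro h
    have : r * L ≤ (α 0 * gain t 0 + α 1 * gain t 1 + α 2 * gain t 2) * L := by linarith
    exact le_of_mul_le_mul_right this hc
  · intro h
    have := mul_le_mul_of_nonneg_right h hc.le
    linarith

theorem w_eq (α : Fin 3 → ℝ) (r X : ℝ) : W α (∑ l, α l - r) X = TS (We α r) X := by
  ext t
  constructor
  · rintro ⟨h1, h2, h3⟩
    exact ⟨h1, h2, (wt_iff h1 α r).1 h3⟩
  · rintro ⟨h1, h2, h3⟩
    exact ⟨h1, h2, (wt_iff h1 α r).2 h3⟩

theorem rad_mul {a b c : ℕ} (ha : a ≠ 0) (hb : b ≠ 0) (hc : c ≠ 0) (h1 : Nat.Coprime a b)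
    (h2 : Nat.Coprime a c) (h3 : Nat.Coprime b c) :
    rad (a * b * c) = rad a * rad b * rad c := by
  unfold rad
  rw [Nat.primeFactors_mul (mul_ne_zero ha hb) hc, Nat.primeFactors_mul ha hb,
    Finset.prod_union, Finset.prod_union h1.disjoint_primeFactors]
  rw [Finset.disjoint_union_left]
  exact ⟨h2.disjoint_primeFactors, h3.disjoint_primeFactors⟩

theorem r_eq (θ X : ℝ) : R θ X = W (fun _ => 1) θ X := by
  ext ⟨a, b, c⟩
  have key : IsTriple (a, b, c) → ((rad (a * b * c) : ℕ) : ℝ) =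
      (rad a : ℝ) ^ (1 : ℝ) * (rad b : ℝ) ^ (1 : ℝ) * (rad c : ℝ) ^ (1 : ℝ) := by
    rintro ⟨h1, h2, h3, h4⟩
    simp only at h1 h2 h3 h4
    have h5 : Nat.Coprime a c := by
      rw [← h4]
      simpa using h3
    have h6 : Nat.Coprime b c := by
      rw [← h4]
      simpa using h3.symm
    rw [rad_mul h1.ne' h2.ne' (by omega) h3 h5 h6, Real.rpow_one, Real.rpow_one, Real.rpow_one]
    push_cast
    ring
  constructor
  · rintro ⟨h1, h2, h3⟩
    refine ⟨h1, h2, ?_⟩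
    simp only at h3 ⊢
    rw [← key h1]
    exact h3
  · rintro ⟨h1, h2, h3⟩
    refine ⟨h1, h2, ?_⟩
    simp only at h3 ⊢
    rw [key h1]
    exact h3

theorem filt_eq (α : Fin 3 → ℝ) (r X : ℝ) (U : Set (Fin 3 → ℝ)) :
    {t ∈ W α (∑ l, α l - r) X | gain t ∉ U} = TS (We α r \ U) X := by
  ext t
  constructor
  · rintro ⟨h1, h2⟩
    rw [w_eq] at h1
    exact ⟨h1.1, h1.2.1, h1.2.2, h2⟩
  · rintro ⟨h1, h2, h3, h4⟩
    refine ⟨?_, h4⟩
    rw [w_eq]
    exact ⟨h1, h2, h3⟩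

theorem weights {α : Fin 3 → ℝ} (hα0 : ∀ l, 0 ≤ α l) (hα1 : ∀ l, α l ≤ 1) (hM : ∃ l, α l = 1)
    {r : ℝ} (hr : 0 < r) (hr1 : r < 1) :
    Tendsto (fun X : ℝ => (Real.log ((W α (∑ l, α l - r) X).ncard : ℝ) - (2 - r) * Real.log X) /
      y X) atTop (𝓝 √(8 * (#{l | α l = 1} : ℕ) * r)) ∧
    ∀ η : ℝ, 0 < η → ∃ δ : ℝ, 0 < δ ∧ ∀ᶠ X : ℝ in atTop,
      (({t ∈ W α (∑ l, α l - r) X |
        ¬ ∀ l, |gain t l - (if α l = 1 then r / (#{i | α i = 1} : ℕ) else 0)| < η}.ncard : ℕ) : ℝ) ≤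
        Real.exp (-(δ * y X)) * ((W α (∑ l, α l - r) X).ncard : ℝ) := by
  constructor
  · have h := to_log_lim (wts hα0 hα1 hM hr hr1)
    simp only [n_eq] at h
    simp only [w_eq]
    exact h
  · intro η hη
    obtain ⟨δ, hδ, h⟩ := to_log_conc (wts_conc hα0 hα1 hM hr hr1 hη)
    refine ⟨δ, hδ, ?_⟩
    filter_upwards [h] with X hX
    rw [n_eq, n_eq, ← filt_eq, ← w_eq] at hX
    exact hX

end

/-- **Large deviations of the radicals of an abc triple, with the second order term.**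
(1) Let `E` be a closed set, `κ ≥ 0`, `0 < ∑ κ < 1`, and suppose that `E` contains the box of side
`η` above `κ`, and that `κ` has the least total gain `∑ κ` among the points of `E` in the unit
cube and the largest `∑ √κ` among those with this total gain. Then
`log N E X = (2 - ∑ κ) log X + (√8 ∑ √κ + o(1)) y X`; and for every open set `U` which contains all
points `g` of `E` in the cube with `∑ g = ∑ κ` and `∑ √g = ∑ √κ` there is `δ > 0` such that for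
large `X` all but `exp(-δ y X) N E X` of the triples counted by `N E X` have their gains in `U`.
(2) For `2 < θ < 3` and `η > 0` there is `δ > 0` such that for large `X` all but a proportion
`exp(-δ y X)` of the abc triples with `c ≤ X` and `rad(abc) ≤ c^θ` have
`c^(θ/3-η) < rad n < c^(θ/3+η)` for each `n` among `a`, `b`, `c`. -/
theorem result :
    (∀ (E : Set (Fin 3 → ℝ)) (κ : Fin 3 → ℝ) (η : ℝ), IsClosed E → (∀ l, 0 ≤ κ l) →
      0 < ∑ l, κ l → ∑ l, κ l < 1 → 0 < η →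
      (∀ g : Fin 3 → ℝ, (∀ l, κ l ≤ g l ∧ g l ≤ κ l + η) → g ∈ E) →
      (∀ g ∈ E ∩ Cube, ∑ l, κ l ≤ ∑ l, g l) →
      (∀ g ∈ E ∩ Cube, ∑ l, g l = ∑ l, κ l → ∑ l, √(g l) ≤ ∑ l, √(κ l)) →
      Tendsto (fun X : ℝ => (Real.log (N E X) - (2 - ∑ l, κ l) * Real.log X) / y X) atTop
        (𝓝 (√8 * ∑ l, √(κ l))) ∧
      ∀ U : Set (Fin 3 → ℝ), IsOpen U →
        (∀ g ∈ E ∩ Cube, ∑ l, g l = ∑ l, κ l → ∑ l, √(g l) = ∑ l, √(κ l) → g ∈ U) →
        ∃ δ : ℝ, 0 < δ ∧ ∀ᶠ X : ℝ in atTop, N (E \ U) X ≤ Real.exp (-(δ * y X)) * N E X) ∧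
    (∀ θ : ℝ, 2 < θ → θ < 3 → ∀ η : ℝ, 0 < η → ∃ δ : ℝ, 0 < δ ∧ ∀ᶠ X : ℝ in atTop,
      (({t ∈ R θ X | ¬ ∀ n ∈ ({t.1, t.2.1, t.2.2} : Set ℕ),
        (t.2.2 : ℝ) ^ (θ / 3 - η) < rad n ∧ (rad n : ℝ) < (t.2.2 : ℝ) ^ (θ / 3 + η)}.ncard : ℕ) :
          ℝ) ≤ Real.exp (-(δ * y X)) * ((R θ X).ncard : ℝ)) := by
  refine ⟨fun E κ η hE hκ0 hκs hκs1 hη hb h1 h2 => ⟨?_, fun U hU h3 => ?_⟩,
    fun θ hθ2 hθ3 η hη => ?_⟩
  · exact to_log_lim (Run7.h585.LD.ups hE hκ0 hκs hκs1 hη hb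
      (fun g hg g0 g1 => h1 g ⟨hg, fun l => ⟨g0 l, g1 l⟩⟩)
      (fun g hg g0 g1 => h2 g ⟨hg, fun l => ⟨g0 l, g1 l⟩⟩))
  · exact to_log_conc (Run7.h585.LD.conc hE hκ0 hκs hκs1 hη hb
      (fun g hg g0 g1 => h1 g ⟨hg, fun l => ⟨g0 l, g1 l⟩⟩)
      (fun g hg g0 g1 => h2 g ⟨hg, fun l => ⟨g0 l, g1 l⟩⟩) hU
      (fun g hg g0 g1 => h3 g ⟨hg, fun l => ⟨g0 l, g1 l⟩⟩))
  · obtain ⟨-, h⟩ := weights (α := fun _ => 1) (r := 3 - θ) (fun _ => zero_le_one)
      (fun _ => le_rfl) ⟨0, rfl⟩ (by linarith) (by linarith)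
    obtain ⟨δ, hδ, h⟩ := h η hη
    refine ⟨δ, hδ, ?_⟩
    have e1 : ∑ _l : Fin 3, (1 : ℝ) - (3 - θ) = θ := by
      rw [Finset.sum_const, Finset.card_univ, Fintype.card_fin]
      norm_num
    simp only [e1, if_true, Finset.filter_true, Finset.card_univ, Fintype.card_fin] at h
    filter_upwards [h] with X hX
    rw [← r_eq] at hX
    refine le_trans ?_ hX
    have hfin : (R θ X).Finite := by
      rw [r_eq]
      have := w_eq (fun _ => 1) (3 - θ) X
      simp only [e1] at this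
      rw [this]
      exact Run7.h585.LD.ts_finite _ _
    have hsub : {t ∈ R θ X | ¬ ∀ n ∈ ({t.1, t.2.1, t.2.2} : Set ℕ),
        (t.2.2 : ℝ) ^ (θ / 3 - η) < rad n ∧ (rad n : ℝ) < (t.2.2 : ℝ) ^ (θ / 3 + η)} ⊆
        {t ∈ R θ X | ¬ ∀ l : Fin 3, |gain t l - (3 - θ) / ((3 : ℕ) : ℝ)| < η} := by
      rintro t ⟨h1, h2⟩
      refine ⟨h1, fun h3 => h2 ?_⟩
      have hT := h1.1
      have hc := Run7.h585.LD.log_c_pos hT
      have hcR : (0 : ℝ) < t.2.2 := by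
        have : 2 ≤ t.2.2 := Run7.h585.LD.two_le_c hT
        exact_mod_cast (by omega : 0 < t.2.2)
      have h4 : ∀ l : Fin 3, |gain t l - (1 - θ / 3)| < η := by
        intro l
        have := h3 l
        have e3 : (3 - θ) / ((3 : ℕ) : ℝ) = 1 - θ / 3 := by push_cast; ring
        rwa [e3] at this
      have key : ∀ n : ℕ, |(1 - Real.log (rad n) / Real.log t.2.2) - (1 - θ / 3)| < η →
          (t.2.2 : ℝ) ^ (θ / 3 - η) < rad n ∧ (rad n : ℝ) < (t.2.2 : ℝ) ^ (θ / 3 + η) := by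
        intro n hn
        have hr0 : (0 : ℝ) < rad n := by exact_mod_cast Run7.h585.LD.rd_pos n
        rw [abs_lt] at hn
        obtain ⟨i1, i2⟩ := hn
        have j1 : Real.log (rad n) / Real.log t.2.2 < θ / 3 + η := by linarith
        have j2 : θ / 3 - η < Real.log (rad n) / Real.log t.2.2 := by linarith
        rw [div_lt_iff₀ hc] at j1
        rw [lt_div_iff₀ hc] at j2
        constructor
        · rw [← Real.log_lt_log_iff (Real.rpow_pos_of_pos hcR _) hr0, Real.log_rpow hcR]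
          exact j2
        · rw [← Real.log_lt_log_iff hr0 (Real.rpow_pos_of_pos hcR _), Real.log_rpow hcR]
          exact j1
      intro n hn
      simp only [Set.mem_insert_iff, Set.mem_singleton_iff] at hn
      rcases hn with rfl | rfl | rfl
      · exact key _ (h4 0)
      · exact key _ (h4 1)
      · exact key _ (h4 2)
    exact Nat.cast_le.2 (Set.ncard_le_ncard hsub (hfin.subset fun t ht => ht.1))

end Pool.Agent.Results.MP_7aad9f_nt.RadicalsLargeDeviations
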