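import Mathlib
import Pool.Agent.Run7.h720.AbcMain

set_option autoImplicit false

/-!
# The abc inequality for sparse integers, with any sparse multiple of the radical and any factor

Let `K` be a number field and `Γ` a finitely generated subgroup of its multiplicative group. We call
an integer short if it is a sum of `r` terms `x * γ` with `γ` in `Γ` and `x` in `K` of height at most
`B * H ^ δ`, where `H = max |a| |b|`. We prove `H ≤ C * |ρ * τ| ^ (1 + ε)` for all coprime integers `a`,
`b` with `a + b = c ≠ 0` such that `a` and `b` are short, all short integers `ρ` and all integers `τ`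
such that `a * b * c` divides `ρ ^ m * τ`.

If `ρ` is the radical of `a * b * c` and `τ` the product of the `p ^ max (e_p - m, 0)` for the primes `p`,
where `e_p` is the exponent of `p` in `a * b * c`, this condition is satisfied; for `τ = 1` it is the
abc inequality. The cofactor of `a * b * c` in `ρ ^ m * τ` is arbitrary.
-/

namespace Pool.Agent.Results.MP_7aad9f_nt.SparseMultiplesOfRadical

/-- The integer `z` is a sum of `r` terms `x * γ`, where `γ` is in `Γ` and `x` is an element of `K` of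
(multiplicative) height at most `R`. -/
def IsShort {K : Type} [Field K] [NumberField K] (Γ : Subgroup Kˣ) (r : ℕ) (R : ℝ) (z : ℤ) : Prop :=
  ∃ (x : Fin r → K) (γ : Fin r → Kˣ), (∀ j, γ j ∈ Γ) ∧ (∀ j, Height.mulHeight₁ (x j) ≤ R) ∧
    (z : K) = ∑ j, x j * (γ j : K)

/-- **Main theorem.** For every number field `K`, every finitely generated subgroup `Γ` of its
multiplicative group, all natural numbers `r`, `m`, all real `B` and all `ε > 0` there are `δ > 0` and
`C` such that `H ≤ C * (|ρ| * |τ|) ^ (1 + ε)`, `H = max |a| |b|`, for all nonzero integers `a`, `b`, `c`,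
`ρ`, `τ` with `a + b = c`, `a` and `b` coprime and `a * b * c ∣ ρ ^ m * τ` for which `a`, `b` and `ρ` are
sums of `r` terms `x * γ` with `γ` in `Γ` and `x` in `K` of height at most `B * H ^ δ`. -/
theorem result (K : Type) [Field K] [NumberField K] (Γ : Subgroup Kˣ) (hΓ : Γ.FG) (r m : ℕ)
    (B ε : ℝ) (hε : 0 < ε) :
    ∃ δ C : ℝ, 0 < δ ∧ ∀ a b c ρ τ : ℤ, IsCoprime a b → a + b = c → a ≠ 0 → b ≠ 0 → c ≠ 0 →
      ρ ≠ 0 → τ ≠ 0 → a * b * c ∣ ρ ^ m * τ →
      IsShort Γ r (B * max |(a : ℝ)| |(b : ℝ)| ^ δ) a →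
      IsShort Γ r (B * max |(a : ℝ)| |(b : ℝ)| ^ δ) b →
      IsShort Γ r (B * max |(a : ℝ)| |(b : ℝ)| ^ δ) ρ →
      max |(a : ℝ)| |(b : ℝ)| ≤ C * (|(ρ : ℝ)| * |(τ : ℝ)|) ^ (1 + ε) := by
  obtain ⟨δ, C, hδ, h⟩ := Pool.Agent.Run7.h720.abc_main K Γ hΓ r m B ε hε
  refine ⟨δ, C, hδ, fun a b c ρ τ hab hc ha hb hc0 hρ hτ hd h1 h2 h3 => ?_⟩
  subst hc
  exact h a b ρ τ hab ha hb hc0 hρ hτ hd h1 h2 h3

end Pool.Agent.Results.MP_7aad9f_nt.SparseMultiplesOfRadical
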